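import Pool.Agent.H46.CH.DL

/-!
# From trees of blocks to accepting trees
-/

set_option autoImplicit false

namespace Pool.Agent.H94.CHD

open Classical Pool.Agent.H46.CH
open Pool.Agent.H8.JS (NTM Cfg Mv IsComp lang num)

theorem fst_cases {M : NTM} {br : M.Q → Option (M.Q × M.Q)} {d : ℕ} {q : M.Q} {i : TI M d}
    (h : TI.fst br q i) :
    (∃ τ, i = .inl (.pop τ) ∧ τ.1 = q ∧ Tr.ok τ ∧ br q = none) ∨
      (i = .inr (.inl q) ∧ (br q).isSome) ∨ (i = .inr (.inr ()) ∧ q = M.acc) := by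
  rcases i with i | q' | u
  · cases i
    case pop τ => exact Or.inl ⟨τ, rfl, h.1, h.2.1, h.2.2⟩
    all_goals exact h.elim
  · obtain ⟨h1, h2⟩ := h
    subst h1
    exact Or.inr (Or.inl ⟨rfl, h2⟩)
  · exact Or.inr (Or.inr ⟨rfl, h⟩)

theorem nx_pop {M : NTM} {br : M.Q → Option (M.Q × M.Q)} {d : ℕ} {τ : Tr M} {i : TI M d}
    (h : TI.nx br (.inl (.pop τ)) i) : i = .inl (.push τ) := by
  rcases i with i | q' | u
  · cases i
    case push τ' =>
      have h1 : τ = τ' := h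
      rw [h1]
    all_goals exact (h : False).elim
  · exact (h : False).elim
  · exact (h : False).elim

theorem ta2_key (hIR : T_TIR) (hS2 : T_S2) (M : NTM) (br : M.Q → Option (M.Q × M.Q)) (B : ℕ)
    (cd : TS M → ℕ) (d n : ℕ) (hC : Code M B cd) (i : (tmT M br B cd d).I) (v : Ct M.k d → ℕ)
    (s : Bool → ℕ) (h : (tmT M br B cd d).Tre i v s) :
    (∀ cc : Cfg M, VC B cd n cc v → TI.fst br cc.q i → (∃ z, ATr M br cc z) ∧ s true = 0) ∧
    ∀ (cc : Cfg M) (v₀ : Ct M.k d → ℕ) (τ : Tr M), i = (.inl (.push τ) : TI M d) →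
      VC B cd n cc v₀ → τ.ok → τ.1 = cc.q → (tmA M B cd d).Rel (.pop τ) v₀ v →
      (∃ c' : Cfg M, Pool.Agent.H8.JS.Step M cc c' ∧ ∃ z, ATr M br c' z) ∧ s true = 0 := by
  induction h with
  | fin e v s ha hf hr hs =>
    refine ⟨fun cc hv hfst => ?_, fun cc v₀ τ he hv hok hq hrel => ?_⟩
    · rcases fst_cases hfst with ⟨τ, rfl, -, -, -⟩ | ⟨rfl, -⟩ | ⟨rfl, hq⟩
      · rcases hf with hf | hf
        · exact absurd hf (by simp)
        · exact absurd hf (by simp)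
      · rcases hf with hf | hf
        · exact absurd hf (by simp)
        · exact absurd hf (by simp)
      · refine ⟨⟨1, ATr.acc cc hq⟩, ?_⟩
        rw [hs]
        rfl
    · subst he
      rcases hf with hf | hf
      · exact absurd hf (by simp)
      · exact absurd hf (by simp)
  | one e v e' v' s' s ha hn hr ht hs ih =>
    refine ⟨fun cc hv hfst => ?_, fun cc v₀ τ he hv hok hq hrel => ?_⟩
    · rcases fst_cases hfst with ⟨τ, rfl, hq, hok, hbr⟩ | ⟨rfl, -⟩ | ⟨rfl, hq⟩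
      · have he' := nx_pop hn
        subst he'
        obtain ⟨⟨c', hst, z, hz⟩, h0⟩ := ih.2 cc v τ rfl hv hok hq
          (((hIR M br B cd d v v').1 _).1 hr)
        refine ⟨⟨z + 1, ATr.ex cc c' z hbr hst hz⟩, ?_⟩
        rw [hs, h0]
        rfl
      · exact absurd ha (by show ¬ (true = false); simp)
      · exact (hn : False).elim
    · subst he
      obtain ⟨c', hst, hq', hv'⟩ := hS2 M B cd d n hC cc v₀ v v' τ hv hok hq hrel
        (((hIR M br B cd d v v').1 _).1 hr)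
      have hn' : TI.fst br τ.2.2.1 e' := hn
      obtain ⟨⟨z, hz⟩, h0⟩ := ih.1 c' hv' (by rw [hq']; exact hn')
      refine ⟨⟨c', hst, z, hz⟩, ?_⟩
      rw [hs, h0]
      rfl
  | two e v e₁ v₁ s₁ e₂ v₂ s₂ s ha hn₁ hn₂ hr₁ hr₂ h₁ h₂ hs ih₁ ih₂ =>
    refine ⟨fun cc hv hfst => ?_, fun cc v₀ τ he hv hok hq hrel => ?_⟩
    · rcases fst_cases hfst with ⟨τ, rfl, -, -, -⟩ | ⟨rfl, -⟩ | ⟨rfl, hq⟩
      · exact absurd ha (by show ¬ (false = true); simp)
      · obtain ⟨q₁, q₂, hb, hf₁⟩ := hn₁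
        obtain ⟨q₁', q₂', hb', hf₂⟩ := hn₂
        rw [hb, Option.some.injEq, Prod.mk.injEq] at hb'
        obtain ⟨-, hb'⟩ := hb'
        subst hb'
        have e1 := ((hIR M br B cd d v v₁).2.1 _).1 hr₁
        have e2 := ((hIR M br B cd d v v₂).2.1 _).1 hr₂
        subst e1 e2
        obtain ⟨⟨z₁, hz₁⟩, h01⟩ := ih₁.1 { cc with q := q₁ } hv hf₁
        obtain ⟨⟨z₂, hz₂⟩, h02⟩ := ih₂.1 { cc with q := q₂ } hv hf₂
        refine ⟨⟨z₁ + z₂ + 1, ATr.all cc q₁ q₂ z₁ z₂ hb hz₁ hz₂⟩, ?_⟩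
        rw [hs, h01, h02]
        rfl
      · exact (hn₁ : False).elim
    · subst he
      exact absurd ha (by show ¬ (false = true); simp)

theorem pf_TA2 (hIR : T_TIR) (hS2 : T_S2) : T_TA2 := by
  intro M br B cd d n hC i v s h cc hv hf
  exact (ta2_key hIR hS2 M br B cd d n hC i v s h).1 cc hv hf

end Pool.Agent.H94.CHD
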