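import Pool.Agent.H46.CH.DL
import Pool.Agent.H94.CH.CB

/-!
# From structures to trees
-/

set_option autoImplicit false

namespace Pool.Agent.H94.CHD

open Classical Pool.Agent.H46.CH Pool.Agent.H94.CH

theorem pf_TCB (hTRB : T_TRB) (hTMT : T_TMT) (hTB1 : T_TB1) (hTB2 : T_TB2) : T_TCB := by
  intro J _ M n R lab hP hS
  obtain ⟨T, b, p, hb, hp, hR⟩ := hP
  obtain ⟨hl, hcard⟩ := (hTMT J M (Fin n) R lab).1 hS
  obtain ⟨sd, e, ⟨i0, he0, hini⟩, h2, h3, h4, h5, h6, h7, h8, h9⟩ :=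
    hTB1 J M (Fin n) R lab T b p hb hp hR hl
  have hbT : ∀ x, b x ≤ T := fun x => (hb _).1 ⟨x, rfl⟩
  set v : ℕ → J → ℕ := fun t j => {x | b x = t ∧ (lab x).2.2 = some j}.ncard with hv
  have hzero : ∀ t, (∀ x, b x = t → (lab x).2.2 = none) → ∀ j, v t j = 0 := by
    intro t ht j
    rw [hv]
    simp only
    rw [Set.ncard_eq_zero (Set.toFinite _)]
    ext x
    simp only [Set.mem_ofPred_eq, Set.mem_empty_iff_false, iff_false]
    rintro ⟨hx, hx'⟩
    rw [ht x hx] at hx'
    exact absurd hx' (by simp)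
  have hTR : M.TR T p sd e v := by
    refine ⟨hp, ⟨i0, he0⟩, ?_, ?_, h8, h9⟩
    · intro t ht he
      obtain ⟨h10, h11, h12⟩ := h6 t ht he
      exact ⟨hzero t h10, h11, h12⟩
    · intro t ht ht0
      obtain ⟨i, hi, h10, h11⟩ := h7 t ht ht0
      have hpt : p t ≤ T := (hp t ht0).le.trans ht
      refine ⟨i, hi, ?_, h10, h11⟩
      refine hTB2 J M (Fin n) R lab b p sd e hp hR hl h2 h4 t i ht0 hi (h5 t ht) (h5 _ hpt) h10 ?_
      intro t' ht' hpt' hsd hx
      have ht'T : t' ≤ T := (hb t').1 hx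
      cases hs : sd t
      · obtain ⟨u, -, hu⟩ := h8 (p t) hpt i hi
        rw [hu t' ⟨ht'T, ht', hpt', hsd.trans hs⟩, hu t ⟨ht, ht0, rfl, hs⟩]
      · obtain ⟨u, -, hu⟩ := h9 (p t) hpt i hi (h10 hs)
        rw [hu t' ⟨ht'T, ht', hpt', hsd.trans hs⟩, hu t ⟨ht, ht0, rfl, hs⟩]
  obtain ⟨s, hs1, hs2⟩ := hTRB J M T p sd e v i0 hTR he0
  have hv0 : v 0 = fun _ => 0 := by
    funext j
    exact hzero 0 (fun x hx => (h3 x hx).2) j
  rw [hv0] at hs1
  have hstl : ∀ x, M.stl (lab x) = M.sto (e (p (b x))) (e (b x)) := by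
    intro x
    unfold BM.stl
    rw [h2 x]
    rcases Nat.eq_zero_or_pos (b x) with hx | hx
    · rw [hx, he0]
      rfl
    · obtain ⟨i, hi, h10⟩ := h4 x hx
      rw [h10, hi]
      rfl
  have hsz : ∀ c, M.sz T p e v c = {x | M.stl (lab x) = c}.ncard := by
    intro c
    rw [cb_range b T hbT]
    unfold BM.sz
    refine Finset.sum_congr rfl fun t ht => ?_
    have htT : t ≤ T := Nat.lt_succ_iff.1 (Finset.mem_range.1 ht)
    by_cases hc : M.sto (e (p t)) (e t) = c
    · rw [if_pos hc]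
      have hset : {x | b x = t ∧ M.stl (lab x) = c} = {x | b x = t} := by
        ext x
        simp only [Set.mem_ofPred_eq]
        constructor
        · exact fun h => h.1
        · intro h
          exact ⟨h, by rw [hstl, h, hc]⟩
      rw [hset, cb_split (fun x => (lab x).2.2) {x | b x = t}]
      have := h5 t htT
      simp only [Set.mem_ofPred_eq]
      rw [this]
    · rw [if_neg hc]
      symm
      rw [Set.ncard_eq_zero (Set.toFinite _)]
      ext x
      simp only [Set.mem_ofPred_eq, Set.mem_empty_iff_false, iff_false]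
      rintro ⟨hx, hx'⟩
      exact hc (by rw [← hx', hstl, hx])
  refine ⟨i0, s, hini, hs1, ?_, ?_⟩
  · rw [← hs2, ← hs2, hsz, hsz]
    exact hcard
  · rw [← hs2, ← hs2, hsz, hsz]
    have hsplit := Set.ncard_add_ncard_compl {x : Fin n | M.stl (lab x) = false} (Set.toFinite _)
      (Set.toFinite _)
    have hco : ({x : Fin n | M.stl (lab x) = false} : Set (Fin n))ᶜ =
        {x | M.stl (lab x) = true} := by
      ext x
      simp
    rw [hco, Nat.card_eq_fintype_card, Fintype.card_fin] at hsplit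
    exact hsplit.symm

end Pool.Agent.H94.CHD
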