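import Pool.Agent.H46.CH.DL
import Pool.Agent.H94.CH.TP

/-!
# Transport of labelled structures along a bijection, blow-ups of trees
-/

set_option autoImplicit false

namespace Pool.Agent.H94.CHD

open Classical Pool.Agent.H46.CH

theorem pf_TTP : T_TTP := by
  intro Λ A B D e lab R
  refine ⟨?_, (Pool.Agent.H94.CH.pf_TP Λ A B D e lab R).2⟩
  rintro ⟨T, b, p, h1, h2, h3⟩
  refine ⟨T, fun x => b (e.symm x), p, fun i => ?_, h2, fun x y => h3 _ _⟩
  rw [← h1 i]
  constructor
  · rintro ⟨x, hx⟩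
    exact ⟨e.symm x, hx⟩
  · rintro ⟨x, hx⟩
    exact ⟨e x, by show b (e.symm (e x)) = i; rw [Equiv.symm_apply_apply]; exact hx⟩

end Pool.Agent.H94.CHD
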