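import Pool.Agent.H46.CH.DL

/-!
# The blocks of a structure: labels
-/

set_option autoImplicit false

namespace Pool.Agent.H94.CHD

open Classical Pool.Agent.H46.CH

theorem pf_TB1 : T_TB1 := by
  intro J _ M A _ R lab T b p hb hp hR hS
  obtain ⟨hok, hpr, hct⟩ := hS
  have hle : ∀ x, b x ≤ T := fun x => (hb (b x)).1 ⟨x, rfl⟩
  -- the relation between the blocks
  have hboth : ∀ x y, (R 0 x y ∧ R 0 y x) ↔ b y = b x := by
    intro x y
    rw [hR, hR]
    constructor
    · rintro ⟨h1 | ⟨h1, h2⟩, h3 | ⟨h3, h4⟩⟩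
      · exact h1
      · exact h1
      · exact h3.symm
      · have := hp _ h1
        have := hp _ h3
        omega
    · intro h
      exact ⟨Or.inl h, Or.inl h.symm⟩
  have hone : ∀ x y, (R 0 x y ∧ ¬ R 0 y x) ↔ (0 < b y ∧ p (b y) = b x) := by
    intro x y
    rw [hR, hR]
    constructor
    · rintro ⟨h1 | h1, h2⟩
      · exact absurd (Or.inl h1.symm) h2
      · exact h1
    · intro h
      refine ⟨Or.inr h, ?_⟩
      rintro (h1 | ⟨h1, h2⟩)
      · have := hp _ h.1
        omega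
      · have := hp _ h.1
        have := hp _ h1
        omega
  -- the counts
  have h1 : ∀ x, {y | y ≠ x ∧ R 0 x y ∧ R 0 y x ∧ (lab y).2.2 = none}.ncard =
      if (lab x).2.2 = none then 0 else 1 := by
    intro x
    have h := hct x (fun l' a b => a 0 ∧ b 0 ∧ l'.2.2 = none,
      if (lab x).2.2 = none then 0 else 1, true) (by simp [BM.lc])
    rw [if_pos rfl] at h
    exact h
  have h2 : ∀ x, {y | y ≠ x ∧ R 0 x y ∧ ¬ R 0 y x ∧ (lab y).2.2 = none ∧
      ∃ i, (lab y).1 = some (i, false)}.ncard = if (lab x).2.1 = none then 0 else 1 := by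
    intro x
    have h := hct x (fun l' a b => a 0 ∧ ¬ b 0 ∧ l'.2.2 = none ∧ ∃ i, l'.1 = some (i, false),
      if (lab x).2.1 = none then 0 else 1, true) (by simp [BM.lc])
    rw [if_pos rfl] at h
    exact h
  have h2' : ∀ x, {y | y ≠ x ∧ R 0 x y ∧ ¬ R 0 y x ∧ (lab y).2.2 = none ∧
      ∃ i, (lab y).1 = some (i, true)}.ncard =
        if ∃ i, (lab x).2.1 = some i ∧ M.ar i = true then 1 else 0 := by
    intro x
    have h := hct x (fun l' a b => a 0 ∧ ¬ b 0 ∧ l'.2.2 = none ∧ ∃ i, l'.1 = some (i, true),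
      if ∃ i, (lab x).2.1 = some i ∧ M.ar i = true then 1 else 0, true) (by simp [BM.lc])
    rw [if_pos rfl] at h
    exact h
  have h3 : ∀ x, ((lab x).1 = none → {y | y ≠ x ∧ R 0 y x ∧ ¬ R 0 x y}.ncard = 0) ∧
      ((lab x).1 ≠ none → 1 ≤ {y | y ≠ x ∧ R 0 y x ∧ ¬ R 0 x y}.ncard) := by
    intro x
    have h := hct x (fun _ a b => b 0 ∧ ¬ a 0, if (lab x).1 = none then 0 else 1,
      if (lab x).1 = none then true else false) (by simp [BM.lc])
    refine ⟨fun h0 => ?_, fun h0 => ?_⟩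
    · simp only [h0, if_true] at h
      exact h
    · simp only [h0, if_false, Bool.false_eq_true] at h
      exact h
  -- the first block
  have h0 : ∀ x, (lab x).1 = none ↔ b x = 0 := by
    intro x
    constructor
    · intro h0
      by_contra hne
      have hpos : 0 < b x := Nat.pos_of_ne_zero hne
      obtain ⟨y, hy⟩ := (hb (p (b x))).2 ((hp _ hpos).le.trans (hle x))
      have h4 := (h3 x).1 h0
      rw [Set.ncard_eq_zero (Set.toFinite _)] at h4
      have h5 : y ∈ {y | y ≠ x ∧ R 0 y x ∧ ¬ R 0 x y} := by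
        refine ⟨?_, (hone y x).2 ⟨hpos, hy.symm⟩⟩
        rintro rfl
        have := hp _ hpos
        omega
      rw [h4] at h5
      exact h5
    · intro h0
      by_contra hne
      have h4 := (h3 x).2 hne
      have h5 : {y | y ≠ x ∧ R 0 y x ∧ ¬ R 0 x y}.Nonempty := by
        rw [← Set.ncard_pos (Set.toFinite _)]
        omega
      obtain ⟨y, -, hy⟩ := h5
      have e1 := (hone y x).1 hy
      omega
  have hsame : ∀ x y, b x = b y → (lab x).1 = (lab y).1 ∧ (lab x).2.1 = (lab y).2.1 := by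
    intro x y hxy
    rcases eq_or_ne x y with rfl | hne
    · exact ⟨rfl, rfl⟩
    · have := (hboth x y).2 hxy.symm
      exact (hpr x y hne).1 this.1 this.2
  have hnext : ∀ x y, 0 < b y → p (b y) = b x → ∃ i sd, (lab x).2.1 = some i ∧
      (lab y).1 = some (i, sd) ∧
      ∀ i', (lab y).2.1 = some i' → if sd = true then M.nr i i' else M.nx i i' := by
    intro x y hy hxy
    have hne : x ≠ y := by
      rintro rfl
      have := hp _ hy
      omega
    have h4 := (hone x y).2 ⟨hy, hxy⟩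
    exact (hpr x y hne).2.1 h4.1 h4.2
  obtain ⟨x₀, hx₀⟩ := (hb 0).2 (Nat.zero_le T)
  have hX : ∀ t, ∃ x : A, t ≤ T → b x = t := by
    intro t
    by_cases ht : t ≤ T
    · obtain ⟨x, hx⟩ := (hb t).2 ht
      exact ⟨x, fun _ => hx⟩
    · exact ⟨x₀, fun h => absurd h ht⟩
  choose X hX using hX
  set e : ℕ → Option M.I := fun t => (lab (X t)).2.1 with he
  set sd : ℕ → Bool := fun t => ((lab (X t)).1.map Prod.snd).getD false with hsd
  have Eb : ∀ x, (lab x).2.1 = e (b x) := fun x => (hsame x _ (hX (b x) (hle x)).symm).2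
  have Ea : ∃ i, e 0 = some i ∧ M.ini i := by
    have hb0 := hX 0 (Nat.zero_le T)
    exact ((hok (X 0)).1 ((h0 _).2 hb0)).2
  have Ed : ∀ x, 0 < b x → ∃ i, e (p (b x)) = some i ∧ (lab x).1 = some (i, sd (b x)) ∧
      ∀ i', (lab x).2.1 = some i' → if sd (b x) = true then M.nr i i' else M.nx i i' := by
    intro x hx
    have hpT : p (b x) ≤ T := (hp _ hx).le.trans (hle x)
    obtain ⟨i, s, hi, hi', hi''⟩ := hnext (X (p (b x))) x hx (hX _ hpT).symm
    have hs : sd (b x) = s := by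
      have h4 : (lab (X (b x))).1 = some (i, s) := by
        rw [← hi', (hsame x (X (b x)) (hX (b x) (hle x)).symm).1]
      show ((lab (X (b x))).1.map Prod.snd).getD false = s
      rw [h4]
      rfl
    refine ⟨i, hi, by rw [hs]; exact hi', by rw [hs]; exact hi''⟩
  have Ee : ∀ t ≤ T, {x | b x = t ∧ (lab x).2.2 = none}.ncard = 1 := by
    intro t ht
    obtain ⟨x, hx⟩ := (hb t).2 ht
    have h4 := h1 x
    have h5 : {y | y ≠ x ∧ R 0 x y ∧ R 0 y x ∧ (lab y).2.2 = none} =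
        {y | y ≠ x ∧ (b y = t ∧ (lab y).2.2 = none)} := by
      ext y
      show (y ≠ x ∧ R 0 x y ∧ R 0 y x ∧ (lab y).2.2 = none) ↔
        (y ≠ x ∧ (b y = t ∧ (lab y).2.2 = none))
      constructor
      · rintro ⟨g1, g2, g3, g4⟩
        have e1 := (hboth x y).1 ⟨g2, g3⟩
        exact ⟨g1, by omega, g4⟩
      · rintro ⟨g1, g2, g3⟩
        have e1 := (hboth x y).2 (by omega)
        exact ⟨g1, e1.1, e1.2, g3⟩
    rw [h5] at h4
    by_cases hh : (lab x).2.2 = none
    · rw [if_pos hh, Set.ncard_eq_zero (Set.toFinite _)] at h4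
      rw [Set.ncard_eq_one]
      refine ⟨x, ?_⟩
      ext y
      show (b y = t ∧ (lab y).2.2 = none) ↔ y = x
      constructor
      · intro hy
        by_contra hne
        have : y ∈ {y | y ≠ x ∧ (b y = t ∧ (lab y).2.2 = none)} := ⟨hne, hy⟩
        rw [h4] at this
        exact this
      · rintro rfl
        exact ⟨hx, hh⟩
    · rw [if_neg hh] at h4
      rw [← h4]
      congr 1
      ext y
      show (b y = t ∧ (lab y).2.2 = none) ↔ (y ≠ x ∧ (b y = t ∧ (lab y).2.2 = none))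
      constructor
      · intro hy
        refine ⟨?_, hy⟩
        rintro rfl
        exact hh hy.2
      · exact fun hy => hy.2
  have hch : ∀ (s : Bool) (x : A), {y | y ≠ x ∧ R 0 x y ∧ ¬ R 0 y x ∧ (lab y).2.2 = none ∧
      ∃ i, (lab y).1 = some (i, s)}.ncard = 1 →
      ∃! t', t' ≤ T ∧ 0 < t' ∧ p t' = b x ∧ sd t' = s := by
    intro s x hx
    rw [Set.ncard_eq_one] at hx
    obtain ⟨y₀, hy₀⟩ := hx
    have hiff : ∀ y, (y ≠ x ∧ R 0 x y ∧ ¬ R 0 y x ∧ (lab y).2.2 = none ∧
        ∃ i, (lab y).1 = some (i, s)) ↔ y = y₀ := fun y => by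
      have : y ∈ {y | y ≠ x ∧ R 0 x y ∧ ¬ R 0 y x ∧ (lab y).2.2 = none ∧
        ∃ i, (lab y).1 = some (i, s)} ↔ y ∈ ({y₀} : Set A) := by rw [hy₀]
      exact this
    obtain ⟨-, g1, g2, -, i, g3⟩ := (hiff y₀).2 rfl
    obtain ⟨g4, g5⟩ := (hone x y₀).1 ⟨g1, g2⟩
    obtain ⟨i', -, g6, -⟩ := Ed y₀ g4
    rw [g3, Option.some.injEq, Prod.mk.injEq] at g6
    refine ⟨b y₀, ⟨hle _, g4, g5, g6.2.symm⟩, ?_⟩
    rintro t' ⟨k1, k2, k3, k4⟩
    have hne : {x | b x = t' ∧ (lab x).2.2 = none}.Nonempty := by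
      rw [← Set.ncard_pos (Set.toFinite _), Ee t' k1]
      exact one_pos
    obtain ⟨y, hy, hy'⟩ := hne
    obtain ⟨i'', -, g7, -⟩ := Ed y (by omega)
    have hy₁ : y = y₀ := by
      refine (hiff y).1 ⟨?_, ?_⟩
      · rintro rfl
        have := hp _ k2
        omega
      · have h6 := (hone x y).2 ⟨by omega, by rw [hy, k3]⟩
        exact ⟨h6.1, h6.2, hy', i'', by rw [g7, hy, k4]⟩
    rw [← hy, hy₁]
  refine ⟨sd, e, Ea, Eb, fun x hx => ⟨(h0 x).2 hx, ((hok x).1 ((h0 x).2 hx)).1⟩,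
    fun x hx => ?_, Ee, ?_, ?_, ?_, ?_⟩
  · obtain ⟨i, hi, hi', -⟩ := Ed x hx
    exact ⟨i, hi, hi'⟩
  · intro t ht het
    have htx : b (X t) = t := hX t ht
    have ht0 : 0 < t := by
      rcases Nat.eq_zero_or_pos t with h | h
      · obtain ⟨i, hi, -⟩ := Ea
        rw [h] at het
        rw [het] at hi
        cases hi
      · exact h
    obtain ⟨i, hi, hi', -⟩ := Ed (X t) (by omega)
    obtain ⟨-, i'', hi'', hfi, har⟩ := (hok (X t)).2.1 het
    rw [hi', Option.some.injEq, Prod.mk.injEq, htx] at hi''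
    rw [htx] at hi
    refine ⟨fun x hx => ?_, hi''.2, i, hi, by rw [hi''.1]; exact hfi, by rw [hi''.1]; exact har⟩
    exact ((hok x).2.1 (by rw [Eb x, hx, het])).1
  · intro t ht ht0
    have htx : b (X t) = t := hX t ht
    obtain ⟨i, hi, hi', hi''⟩ := Ed (X t) (by omega)
    rw [htx] at hi hi' hi''
    refine ⟨i, hi, fun hs => ?_, hi''⟩
    rw [hs] at hi'
    exact (hok (X t)).2.2 i hi'
  · intro t ht i hi
    have h4 := h2 (X t)
    have h5 : (lab (X t)).2.1 ≠ none := by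
      show e t ≠ none
      rw [hi]
      simp
    rw [if_neg h5] at h4
    have h6 := hch false (X t) h4
    rwa [hX t ht] at h6
  · intro t ht i hi har
    have h4 := h2' (X t)
    rw [if_pos ⟨i, hi, har⟩] at h4
    have h6 := hch true (X t) h4
    rwa [hX t ht] at h6

end Pool.Agent.H94.CHD
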